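import Mathlib

/-!
# Independent embeddings of countable fields in algebraically closed fields
-/

set_option autoImplicit false

open Cardinal

namespace Pool.Agent.U644.CN

section

variable (k : Type) [Field k] {K L : Type} [Field K] [Field L] [Algebra k K] [Algebra k L]

/-- The embeddings `i` and `j` of `K` in `L` are independent over `k`: for some transcendence basis `t` of `K`
over `k` the elements `i (t a)` and `j (t a)`, taken together, are algebraically independent over `k`. -/
def Independent (i j : K →+* L) : Prop :=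
  ∃ (ι : Type) (t : ι → K), IsTranscendenceBasis k t ∧
    AlgebraicIndependent k (Sum.elim (fun a => i (t a)) (fun a => j (t a)))

end

variable {k : Type} [Field k] {K Ω : Type} [Field K] [Field Ω] [Algebra k K] [Algebra k Ω]

/-- Embeddings with given values on a transcendence basis. -/
lemma exists_hom [IsAlgClosed Ω] {ι : Type} {t : ι → K} (ht : IsTranscendenceBasis k t) {v : ι → Ω}
    (hv : AlgebraicIndependent k v) : ∃ φ : K →ₐ[k] Ω, ∀ a, φ (t a) = v a := by
  let A := Algebra.adjoin k (Set.range t)
  have hA : Algebra.IsAlgebraic A K := ht.isAlgebraic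
  let e : MvPolynomial ι k ≃ₐ[k] A := ht.1.aevalEquiv
  let g : A →ₐ[k] Ω := (MvPolynomial.aeval v).comp e.symm.toAlgHom
  have hg : Function.Injective g := by
    have h1 : Function.Injective (MvPolynomial.aeval v : MvPolynomial ι k →ₐ[k] Ω) := hv
    exact h1.comp e.symm.injective
  let : Algebra A Ω := g.toRingHom.toAlgebra
  have hst : IsScalarTower k A Ω := IsScalarTower.of_algebraMap_eq fun x => (g.commutes x).symm
  have hf : FaithfulSMul A Ω := (faithfulSMul_iff_algebraMap_injective A Ω).mpr hg
  have h2 : Module.IsTorsionFree A Ω := by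
    infer_instance
  let φ : K →ₐ[A] Ω := IsAlgClosed.lift
  refine ⟨φ.restrictScalars k, fun a => ?_⟩
  have h3 : (⟨t a, Algebra.subset_adjoin ⟨a, rfl⟩⟩ : A) = e (MvPolynomial.X a) := by
    apply Subtype.ext
    have h6 := ht.1.aevalEquiv_apply_coe (MvPolynomial.X a)
    rw [MvPolynomial.aeval_X] at h6
    exact h6.symm
  have h4 : t a = algebraMap A K ⟨t a, Algebra.subset_adjoin ⟨a, rfl⟩⟩ := rfl
  have h5 : φ (t a) = g ⟨t a, Algebra.subset_adjoin ⟨a, rfl⟩⟩ := by
    conv_lhs => rw [h4]
    exact φ.commutes _
  change φ (t a) = v a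
  rw [h5, h3]
  change MvPolynomial.aeval v (e.symm (e (MvPolynomial.X a))) = v a
  rw [AlgEquiv.symm_apply_apply, MvPolynomial.aeval_X]

/-- A countable field has as many pairwise independent embeddings in an uncountable algebraically closed field as
this field has elements. -/
theorem exists_family [Countable k] [Countable K] [IsAlgClosed Ω] (hΩ : ℵ₀ < #Ω) :
    ∃ φ : Ω → (K →+* Ω), ∀ r s, r ≠ s → Independent k (φ r) (φ s) := by
  obtain ⟨ι, t, ht⟩ := exists_isTranscendenceBasis' k K
  obtain ⟨I, u, hu⟩ := exists_isTranscendenceBasis' k Ω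
  have hI : #Ω = #I := IsAlgClosed.cardinal_eq_cardinal_transcendence_basis_of_aleph0_lt' u hu
    (mk_le_aleph0 (α := k)) hΩ
  have hι : #ι ≤ ℵ₀ := by
    have : Countable ι := ht.1.injective.countable
    exact mk_le_aleph0
  have hcard : #(Ω × ι) ≤ #I := by
    rw [mk_prod, lift_id, lift_id, ← hI]
    calc #Ω * #ι ≤ #Ω * #Ω := mul_le_mul_right (hι.trans hΩ.le) _
      _ = #Ω := mul_eq_self hΩ.le
  obtain ⟨c⟩ : Nonempty (Ω × ι ↪ I) := Cardinal.le_def _ _ |>.mp hcard
  have hv : ∀ r : Ω, AlgebraicIndependent k fun a => u (c (r, a)) := fun r =>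
    hu.1.comp (fun a => c (r, a)) fun a b h => by
      have := c.injective h
      exact (Prod.mk.injEq _ _ _ _ ▸ this).2
  choose φ hφ using fun r : Ω => exists_hom ht (hv r)
  refine ⟨fun r => (φ r : K →+* Ω), fun r s hrs => ⟨ι, t, ht, ?_⟩⟩
  have h : (Sum.elim (fun a => (φ r : K →+* Ω) (t a)) (fun a => (φ s : K →+* Ω) (t a))) =
      fun x => u (Sum.elim (fun a => c (r, a)) (fun a => c (s, a)) x) := by
    funext x
    rcases x with a | a
    · exact hφ r a
    · exact hφ s a
  rw [h]
  refine hu.1.comp _ ?_
  rintro (a | a) (b | b) hab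
  · have := c.injective hab
    simp only [Prod.mk.injEq, true_and] at this
    rw [this]
  · have := c.injective hab
    simp only [Prod.mk.injEq] at this
    exact absurd this.1 hrs
  · have := c.injective hab
    simp only [Prod.mk.injEq] at this
    exact absurd this.1.symm hrs
  · have := c.injective hab
    simp only [Prod.mk.injEq, true_and] at this
    rw [this]

end Pool.Agent.U644.CN
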